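import Pool.Agent.Helper45.L.Defs
import Pool.Agent.Helper45.HG.Sel
import Pool.Agent.Helper13.HG2.Cls
import Pool.Agent.Helper21.HG.Mert
import Pool.Agent.Helper29.HG2.SM
import Pool.Agent.Helper88.HG.G4

/-!
# Project L (MP_e66f84_ag), block CT: the number of classes
-/

set_option autoImplicit false

namespace Pool.Agent.L

open NumberField IsDedekindDomain
open Pool.Agent.HG (Pr nm IsOdd)

private theorem isOdd_iff99 {k : Type} [Field k] [NumberField k] {p : ℕ} {v : Pr k} (hp : p.Prime)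
    (hv : (p : 𝓞 k) ∈ v.asIdeal)
    (hu : ∀ z : k, z ≠ 0 → ∃ a : ℤ, v.valuation k (z * (p : k) ^ a) = 1) {c : k} (hc : c ≠ 0) :
    IsOdd v c ↔ Pool.Agent.HG.Od v p c := by
  constructor
  · intro h
    obtain ⟨a, ha⟩ := hu c hc
    rcases Int.even_or_odd' a with ⟨b, rfl | rfl⟩
    · exfalso
      apply h ((p : k) ^ (-b))
      have h0 : v.valuation k ((p : k) ^ (2 * b)) ≠ 0 :=
        Pool.Agent.HG.val_ne_zero v (zpow_ne_zero _ (by exact_mod_cast hp.ne_zero))
      apply mul_right_cancel₀ h0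
      rw [← map_mul, ha, ← map_pow, ← map_mul, ← zpow_natCast, ← zpow_mul,
        ← zpow_add₀ (by exact_mod_cast hp.ne_zero : (p : k) ≠ 0)]
      have e : -b * ((2 : ℕ) : ℤ) + 2 * b = 0 := by push_cast; ring
      rw [e, zpow_zero, map_one]
    · exact ⟨b, ha⟩
  · rintro ⟨a, ha⟩ d hd
    have hd0 : d ≠ 0 := by
      rintro rfl
      rw [map_zero, zero_pow two_ne_zero] at hd
      exact Pool.Agent.HG.val_ne_zero v hc hd
    obtain ⟨b, hb⟩ := hu d hd0
    have h1 : v.valuation k (p : k) ^ (2 * a + 1) * v.valuation k c = 1 := by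
      rw [mul_comm, ← map_zpow₀, ← map_mul, ha]
    have h2 : v.valuation k (p : k) ^ (2 * b) * v.valuation k c = 1 := by
      rw [hd, mul_comm 2 b, zpow_mul, ← map_zpow₀]
      have e : (v.valuation k ((p : k) ^ b)) ^ (2 : ℤ) * v.valuation k d ^ 2 =
          (v.valuation k (d * (p : k) ^ b)) ^ 2 := by
        rw [map_mul, mul_pow, mul_comm]
        norm_cast
      rw [e, hb, one_pow]
    have h3 := mul_right_cancel₀ (Pool.Agent.HG.val_ne_zero v hc) (h1.trans h2.symm)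
    have h4 := zpow_right_injective₀ (zero_lt_iff.2 (Pool.Agent.HG.val_p_ne hp))
      (Pool.Agent.HG.val_p_lt hv).ne h3
    omega

open scoped Classical in
theorem ct : StmtCT := by
  intro k _ _ B hB δ C Q Bad hBad hδ hQ
  have hM : (discr k).natAbs ≠ 0 := Int.natAbs_ne_zero.2 (NumberField.discr_ne_zero k)
  have hu : ∀ (p : ℕ) (v : Pr k), p.Prime → ¬ p ∣ (discr k).natAbs → (p : 𝓞 k) ∈ v.asIdeal →
      ∀ z : k, z ≠ 0 → ∃ a : ℤ, v.valuation k (z * (p : k) ^ a) = 1 :=
    fun p v hp hpM hv z hz => Pool.Agent.Helper88.HG.exists_zpow k hp hv hpM hz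
  obtain ⟨F, hF⟩ := Pool.Agent.HG.cls_count Pool.Agent.HG.sel hM hu
    (fun p v hp hpM hv z hz => isOdd_iff99 hp hv (hu p v hp hpM hv) hz)
  -- the primes of `Q` outside `Bad`
  have hQ' : ∀ x : ℕ, 2 ≤ x → δ * Real.log (Real.log x) - (C + hBad.toFinset.card) ≤
      Finset.sum (@Finset.filter _ (· ∈ Q \ Bad) (Classical.decPred _) (B x)) fun v => (1 : ℝ) / nm v := by
    intro x hx
    have h1 := (abs_le.1 (hQ x hx)).1
    have h2 : (B x).filter (· ∈ Q) ⊆
        (@Finset.filter _ (· ∈ Q \ Bad) (Classical.decPred _) (B x)) ∪ hBad.toFinset := by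
      intro v hv
      obtain ⟨g1, g2⟩ := Finset.mem_filter.1 hv
      by_cases h : v ∈ Bad
      · exact Finset.mem_union_right _ (hBad.mem_toFinset.2 h)
      · exact Finset.mem_union_left _ ((@Finset.mem_filter _ _ (Classical.decPred _) _ _).2 ⟨g1, g2, h⟩)
    have h3 : ∑ v ∈ (B x).filter (· ∈ Q), (1 : ℝ) / nm v ≤
        ∑ v ∈ (@Finset.filter _ (· ∈ Q \ Bad) (Classical.decPred _) (B x)) ∪ hBad.toFinset, (1 : ℝ) / nm v :=
      Finset.sum_le_sum_of_subset_of_nonneg h2 fun v _ _ => by positivity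
    have h4 : ∑ v ∈ (@Finset.filter _ (· ∈ Q \ Bad) (Classical.decPred _) (B x)) ∪ hBad.toFinset, (1 : ℝ) / nm v ≤
        ∑ v ∈ (@Finset.filter _ (· ∈ Q \ Bad) (Classical.decPred _) (B x)), (1 : ℝ) / nm v +
        ∑ v ∈ hBad.toFinset, (1 : ℝ) / nm v := by
      rw [← Finset.sum_union_inter]
      have : 0 ≤ ∑ v ∈ (@Finset.filter _ (· ∈ Q \ Bad) (Classical.decPred _) (B x)) ∩ hBad.toFinset, (1 : ℝ) / nm v :=
        Finset.sum_nonneg fun v _ => by positivity
      linarith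
    have h5 : ∑ v ∈ hBad.toFinset, (1 : ℝ) / nm v ≤ hBad.toFinset.card := by
      calc ∑ v ∈ hBad.toFinset, (1 : ℝ) / nm v ≤ ∑ v ∈ hBad.toFinset, (1 : ℝ) := by
            refine Finset.sum_le_sum fun v _ => ?_
            rcases Nat.eq_zero_or_pos (nm v) with h | h
            · rw [h, Nat.cast_zero, div_zero]
              exact zero_le_one
            · have : (1 : ℝ) ≤ nm v := by exact_mod_cast h
              rw [div_le_one (by linarith)]
              exact this
        _ = _ := by simp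
    linarith
  obtain ⟨C', hC', hav⟩ := Pool.Agent.HG.avoid29 Pool.Agent.Helper21.HG.mert (Q \ Bad) hB hQ'
  refine ⟨δ, F * C', hδ, fun X hX T hT hTc => ?_⟩
  have h1 := hF (fun c => ∀ v ∈ Q, v ∉ Bad → ¬ IsOdd v c) X (C' * X / Real.log X ^ δ) (by
    intro SS hSS
    refine hav X hX SS fun A hA => ?_
    obtain ⟨g1, c, _, g2, g3⟩ := hSS A hA
    exact ⟨g1, fun v hv hvA => g2 v hv.1 hv.2 ((g3 v).1 hvA).2⟩) T hT hTc
  calc (T.card : ℝ) ≤ F * (C' * X / Real.log X ^ δ) := h1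
    _ = _ := by ring

end Pool.Agent.L
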